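import Pool.Agent.Hhelper63.SAW.HWGen

/-!
Hammersley-Welsh: below the critical fugacity the walks of the honeycomb lattice are summable.
-/

namespace Pool.Agent.Hhelper63.HW

open Pool.Agent.Hhelper14.SAW Finset

/-- Reconstruction of the first part. -/
def rec1 (A : List (ℤ × ℤ)) : List (ℤ × ℤ) := (A.map (fun z => z - A.headI)).reverse

lemma Adj.sub_A {a b y : ℤ × ℤ} (h : Adj a b) (hy : F0 y % 3 = 0) : Adj (a - y) (b - y) := by
  obtain ⟨h1, h2, h3⟩ := h
  obtain ⟨a1, a2⟩ := a
  obtain ⟨b1, b2⟩ := b
  obtain ⟨y1, y2⟩ := y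
  simp only [Adj, hon, U, F0, Prod.mk_sub_mk] at *
  omega

lemma geomC {v u : ℤ × ℤ} (h : Adj v u) (hlt : F0 v / 3 < F0 u / 3) :
    u = v + (1, 0) ∧ F0 u % 3 = 0 ∧ F0 u = 3 * (F0 v / 3) + 3 := by
  obtain ⟨h1, h2, h3⟩ := h
  obtain ⟨a, b⟩ := v
  obtain ⟨c, d⟩ := u
  simp only [hon, U, F0, Prod.mk_sub_mk, Prod.mk_add_mk, Prod.mk.injEq] at *
  omega

lemma geomD {v u y : ℤ × ℤ} (h : Adj v u) (hlt : F0 v / 3 < F0 u / 3) (hy : Adj y v) (hyu : y ≠ u)
    (hym : F0 v / 3 ≤ F0 y / 3) : (y = v + (0, -1) ∨ y = v + (-1, 1)) ∧ F0 y % 3 = 0 ∧ F0 y = 3 * (F0 v / 3) := by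
  obtain ⟨h1, h2, h3⟩ := h
  obtain ⟨h4, h5, h6⟩ := hy
  obtain ⟨a, b⟩ := v
  obtain ⟨c, d⟩ := u
  obtain ⟨e, f⟩ := y
  simp only [hon, U, F0, Prod.mk_sub_mk, Prod.mk_add_mk, Prod.mk.injEq, ne_eq] at *
  omega

lemma ne_nil_of_len {P : List (ℤ × ℤ)} {n : ℕ} (h : P.length = n + 1) : P ≠ [] := by
  rintro rfl
  simp at h

/-- Decomposition of an arbitrary walk. -/
lemma coverW {n : ℕ} {P : List (ℤ × ℤ)} (h : IsWalk n P) :
    (∃ Q ∈ saw Hp n, P = Q.dropLast) ∨
    (∃ m, m + 1 = n ∧ ∃ A ∈ saw Hp m, P = rec1 A) ∨
    ∃ j l, j + l + 2 = n ∧ ∃ A ∈ saw Hp j, ∃ B ∈ saw Hp l,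
      P = B.dropLast.map (fun z => z + ((rec1 A).headI + (0, -1))) ++ rec1 A ∨
      P = B.dropLast.map (fun z => z + ((rec1 A).headI + (-1, 1))) ++ rec1 A := by
  obtain ⟨hl, hN, hC, hlast⟩ := h
  have hne := ne_nil_of_len hl
  have hne' : P.toFinset.Nonempty := by
    obtain ⟨a, t, rfl⟩ := List.exists_cons_of_ne_nil hne
    exact ⟨a, by simp⟩
  obtain ⟨z0, hz0, hmin⟩ := P.toFinset.exists_min_image (fun z => F0 z / 3) hne'
  rw [List.mem_toFinset] at hz0
  have hmin' : ∀ x ∈ P, F0 z0 / 3 ≤ F0 x / 3 := fun x hx => hmin x (List.mem_toFinset.2 hx)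
  obtain ⟨s, v, t, rfl, hv, ht⟩ := split_last (fun z => F0 z / 3 = F0 z0 / 3) P ⟨z0, hz0, rfl⟩
  have ht' : ∀ x ∈ t, F0 v / 3 < F0 x / 3 := by
    intro x hx
    have h1 := ht x hx
    have h2 := hmin' x (by simp [hx])
    omega
  have hs' : ∀ x ∈ s, F0 v / 3 ≤ F0 x / 3 := by
    intro x hx
    have h2 := hmin' x (by simp [hx])
    omega
  clear hmin hmin' hz0 hne'
  cases t with
  | nil =>
    left
    have hvo : v = o := by
      have : (s ++ [v]).getLast? = some v := by simp
      rw [this] at hlast
      simpa using hlast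
    subst hvo
    refine ⟨(s ++ [o]) ++ [o'], ?_, by rw [List.dropLast_concat]⟩
    rw [mem_saw Hp_dom, isSaw_iff]
    have hall : ∀ x ∈ s ++ [o], Hp x := by
      intro x hx
      have hx1 : 0 ≤ F0 x / 3 := by
        have e : F0 o / 3 = 0 := by decide
        rcases List.mem_append.1 hx with h | h
        · have := hs' x h
          omega
        · have : x = o := by simpa using h
          rw [this, e]
      refine ⟨?_, by omega⟩
      -- honeycomb membership from the chain, or `o`
      by_cases hsn : s = []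
      · subst hsn
        have : x = o := by simpa using hx
        rw [this]; exact hon_o
      · obtain ⟨a, s', rfl⟩ := List.exists_cons_of_ne_nil hsn
        obtain ⟨q, r, hqr⟩ := List.append_of_mem hx
        rw [hqr] at hC
        rcases r with _ | ⟨b, r⟩
        · rcases List.eq_nil_or_concat q with rfl | ⟨q', c, rfl⟩
          · exfalso
            have := congrArg List.length hqr
            simp at this
          · have h1 := (List.isChain_append.1 hC).2.2 c (by simp) x (by simp)
            exact h1.2.1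
        · have h1 := (List.isChain_append.1 hC).2.1
          exact (List.isChain_cons_cons.1 h1).1.1
    refine ⟨?_, ?_, ?_, ⟨s, by simp⟩, ?_⟩
    · simp only [List.length_append, List.length_cons, List.length_nil] at hl ⊢
      omega
    · rw [List.nodup_append]
      refine ⟨hN, by simp, ?_⟩
      intro a ha b hb
      have hb' : b = o' := by simpa using hb
      rw [hb']
      rintro rfl
      exact not_p_o' Hp_dom (hall _ ha)
    · refine List.isChain_append.2 ⟨hC, by simp, ?_⟩
      intro a ha b hb
      have ha' : a = o := by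
        simp only [List.getLast?_append, List.getLast?_singleton, Option.some_or, Option.mem_def,
          Option.some.injEq] at ha
        exact ha.symm
      have hb' : b = o' := by
        simp only [List.head?_cons, Option.mem_def, Option.some.injEq] at hb
        exact hb.symm
      rw [ha', hb']
      exact adj_o
    · intro x hx
      rcases List.mem_append.1 hx with h | h
      · exact Or.inr (hall x h)
      · left; simpa using h
  | cons u t' =>
    right
    have hC2 : HChain (v :: u :: t') := (List.isChain_append.1 hC).2.1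
    have avu : Adj v u := (List.isChain_cons_cons.1 hC2).1
    have hN2 : (v :: u :: t').Nodup := (List.nodup_append.1 hN).2.1
    obtain ⟨hu, hu3, huF⟩ := geomC avu (ht' u (by simp))
    have hlast2 : (u :: t').getLast (by simp) = o := by
      have e1 : (s ++ v :: u :: t').getLast? = some ((u :: t').getLast (by simp)) := by
        have : s ++ v :: u :: t' = (s ++ [v]) ++ (u :: t') := by simp
        rw [this, List.getLast?_append, List.getLast?_eq_getLast_of_ne_nil (by simp : u :: t' ≠ [])]
        simp
      rw [e1] at hlast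
      simpa using hlast
    -- the first part
    set A : List (ℤ × ℤ) := (v :: u :: t').reverse.map (fun z => z - u) with hA
    have hrev : (v :: u :: t').reverse = ((u :: t').reverse) ++ [v] := by simp
    have hAmem : A ∈ saw Hp t'.length := by
      rw [mem_saw Hp_dom, isSaw_iff]
      refine ⟨by simp [hA], ?_, ?_, ?_, ?_⟩
      · refine List.Nodup.map ?_ (List.nodup_reverse.2 hN2)
        intro a b hab
        simpa using hab
      · rw [hA, HChain, List.isChain_map]
        refine List.IsChain.imp (fun a b hab => Adj.sub_A hab hu3) ?_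
        exact List.isChain_reverse.2 (List.IsChain.imp (fun _ _ hh => hh.symm) hC2)
      · refine ⟨(t'.reverse).map (fun z => z - u), ?_⟩
        rw [hA]
        simp only [List.reverse_cons, List.append_assoc, List.map_append, List.map_cons, List.map_nil,
          List.cons_append, List.nil_append]
        have e1 : u - u = o := by rw [sub_self]; rfl
        have e2 : v - u = o' := by rw [hu]; simp [o']
        rw [e1, e2]
      · intro x hx
        rw [hA, List.mem_map] at hx
        obtain ⟨z, hz, rfl⟩ := hx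
        rw [List.mem_reverse, List.mem_cons] at hz
        rcases hz with rfl | hz
        · left; rw [hu]; simp [o']
        · right
          have h1 := ht' z hz
          have hzhon : hon z := by
            obtain ⟨q, r, hqr⟩ := List.append_of_mem hz
            have : v :: u :: t' = (v :: q) ++ z :: r := by rw [hqr]; simp
            rw [this] at hC2
            rcases List.eq_nil_or_concat q with rfl | ⟨q', c, rfl⟩
            · exact ((List.isChain_append.1 hC2).2.2 v (by simp) z (by simp)).2.1
            · exact ((List.isChain_append.1 hC2).2.2 c (by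
                rw [Option.mem_def, List.concat_eq_append, ← List.cons_append, List.getLast?_concat])
                z (by simp)).2.1
          obtain ⟨a, b⟩ := z
          obtain ⟨c, d⟩ := u
          simp only [Hp, hon, F0, Prod.mk_sub_mk] at *
          omega
    have hAhead : A.headI = o - u := by
      have h1 : (v :: u :: t').reverse = o :: ((v :: u :: t').reverse).tail := by
        have h2 : (v :: u :: t').reverse.head (by simp) = o := by
          rw [List.head_reverse, List.getLast_cons_cons]
          exact hlast2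
        conv_lhs => rw [← List.cons_head_tail (by simp : (v :: u :: t').reverse ≠ [])]
        rw [h2]
      rw [hA, h1]
      simp
    have hrecA : rec1 A = v :: u :: t' := by
      unfold rec1
      rw [hAhead, hA, List.map_map]
      have e : ((fun z => z - (o - u)) ∘ fun z => z - u : ℤ × ℤ → ℤ × ℤ) = id := by
        funext z
        simp only [Function.comp, id]
        have : (o : ℤ × ℤ) = 0 := rfl
        rw [this]; ring
      rw [e, List.map_id, List.reverse_reverse]
    rcases List.eq_nil_or_concat s with rfl | ⟨s', y, rfl⟩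
    · left
      refine ⟨t'.length, ?_, A, hAmem, ?_⟩
      · simp only [List.nil_append, List.length_cons] at hl
        omega
      · rw [hrecA]; simp
    · right
      have e1 : (s'.concat y) ++ v :: u :: t' = s' ++ y :: v :: u :: t' := by simp
      rw [e1] at hl hN hC hlast ⊢
      have hC3 : HChain (y :: v :: u :: t') := (List.isChain_append.1 hC).2.1
      have ayv : Adj y v := (List.isChain_cons_cons.1 hC3).1
      have hN3 : (y :: v :: u :: t').Nodup := (List.nodup_append.1 hN).2.1
      have hyu : y ≠ u := by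
        intro e
        exact (List.nodup_cons.1 hN3).1 (by rw [e]; simp)
      obtain ⟨hy, hy3, hyF⟩ := geomD avu (ht' u (by simp)) ayv hyu (hs' y (by simp))
      set B : List (ℤ × ℤ) := ((s' ++ [y]).map (fun z => z - y)) ++ [o'] with hB
      have hBd : B.dropLast = (s' ++ [y]).map (fun z => z - y) := by rw [hB, List.dropLast_concat]
      have hss : ∀ x ∈ s' ++ [y], hon x ∧ F0 v / 3 ≤ F0 x / 3 := by
        intro x hx
        constructor
        · have hx' : x ∈ s' ++ y :: v :: u :: t' := by
            rcases List.mem_append.1 hx with h | h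
            · exact List.mem_append_left _ h
            · have : x = y := by simpa using h
              rw [this]; simp
          obtain ⟨q, r, hqr⟩ := List.append_of_mem hx'
          rcases r with _ | ⟨b, r⟩
          · have h1 : (s' ++ y :: v :: u :: t').getLast? = some x := by rw [hqr]; simp
            rw [h1] at hlast
            have : x = o := by simpa using hlast
            rw [this]; exact hon_o
          · rw [hqr] at hC
            exact (List.isChain_cons_cons.1 (List.isChain_append.1 hC).2.1).1.1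
        · apply hs' x
          rw [List.concat_eq_append]; exact hx
      have hBall : ∀ x ∈ (s' ++ [y]).map (fun z => z - y), Hp x := by
        intro x hx
        rw [List.mem_map] at hx
        obtain ⟨z, hz, rfl⟩ := hx
        obtain ⟨h1, h2⟩ := hss z hz
        obtain ⟨a, b⟩ := z
        obtain ⟨c, d⟩ := y
        simp only [Hp, hon, F0, Prod.mk_sub_mk] at *
        omega
      have hBmem : B ∈ saw Hp s'.length := by
        rw [mem_saw Hp_dom, isSaw_iff]
        refine ⟨by simp [hB], ?_, ?_, ?_, ?_⟩
        · rw [hB, List.nodup_append]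
          refine ⟨?_, by simp, ?_⟩
          · refine List.Nodup.map ?_ ?_
            · intro a b hab
              simpa using hab
            · have : s' ++ y :: v :: u :: t' = (s' ++ [y]) ++ (v :: u :: t') := by simp
              rw [this] at hN
              exact (List.nodup_append.1 hN).1
          · intro a ha b hb
            have hb' : b = o' := by simpa using hb
            rw [hb']
            rintro rfl
            exact not_p_o' Hp_dom (hBall _ ha)
        · rw [hB]
          refine List.isChain_append.2 ⟨?_, by simp, ?_⟩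
          · rw [List.isChain_map]
            refine List.IsChain.imp (fun a b hab => Adj.sub_A hab hy3) ?_
            have : s' ++ y :: v :: u :: t' = (s' ++ [y]) ++ (v :: u :: t') := by simp
            rw [this] at hC
            exact (List.isChain_append.1 hC).1
          · intro a ha b hb
            have ha' : a = o := by
              rw [List.map_append, List.map_cons, List.map_nil, sub_self] at ha
              simp only [List.getLast?_append, List.getLast?_singleton, Option.some_or, Option.mem_def,
                Option.some.injEq] at ha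
              exact ha.symm
            have hb' : b = o' := by
              simp only [List.head?_cons, Option.mem_def, Option.some.injEq] at hb
              exact hb.symm
            rw [ha', hb']
            exact adj_o
        · refine ⟨s'.map (fun z => z - y), ?_⟩
          rw [hB, List.map_append, List.map_cons, List.map_nil, sub_self]
          have : (0 : ℤ × ℤ) = o := rfl
          rw [this]; simp
        · intro x hx
          rw [hB] at hx
          rcases List.mem_append.1 hx with h | h
          · exact Or.inr (hBall x h)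
          · left; simpa using h
      refine ⟨t'.length, s'.length, ?_, A, hAmem, B, hBmem, ?_⟩
      · simp only [List.length_append, List.length_cons] at hl
        omega
      · rw [hrecA, hBd]
        simp only [List.headI_cons]
        rcases hy with hy | hy
        · left
          rw [← hy, List.map_map]
          have e : ((fun z => z + y) ∘ fun z => z - y : ℤ × ℤ → ℤ × ℤ) = id := by
            funext z
            simp
          rw [e, List.map_id]; simp
        · right
          rw [← hy, List.map_map]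
          have e : ((fun z => z + y) ∘ fun z => z - y : ℤ × ℤ → ℤ × ℤ) = id := by
            funext z
            simp
          rw [e, List.map_id]; simp

/-- Number of walks of the half plane. -/
def Hn (n : ℕ) : ℕ := (saw Hp n).card

lemma an_le (n N : ℕ) (hn : n ≤ N) : an n ≤ Hn n + (∑ m ∈ (range N).filter (fun m => m + 1 = n), Hn m +
    2 * ∑ p ∈ (range N ×ˢ range N).filter (fun p => p.1 + p.2 + 2 = n), Hn p.1 * Hn p.2) := by
  classical
  set A0 : Finset (List (ℤ × ℤ)) := (saw Hp n).image List.dropLast with hA0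
  set A1 : Finset (List (ℤ × ℤ)) := ((range N).filter (fun m => m + 1 = n)).biUnion
    (fun m => (saw Hp m).image rec1) with hA1
  set f : ℤ × ℤ → List (ℤ × ℤ) × List (ℤ × ℤ) → List (ℤ × ℤ) := fun e q =>
    q.2.dropLast.map (fun z => z + ((rec1 q.1).headI + e)) ++ rec1 q.1 with hf
  set A2 : ℤ × ℤ → Finset (List (ℤ × ℤ)) := fun e =>
    ((range N ×ˢ range N).filter (fun p => p.1 + p.2 + 2 = n)).biUnion
      (fun p => (saw Hp p.1 ×ˢ saw Hp p.2).image (f e)) with hA2
  have hsub : {P | IsWalk n P} ⊆ ((A0 ∪ (A1 ∪ (A2 (0, -1) ∪ A2 (-1, 1))) : Finset (List (ℤ × ℤ))) :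
      Set (List (ℤ × ℤ))) := by
    intro P hP
    rw [Set.mem_ofPred_eq] at hP
    simp only [coe_union, Set.mem_union, mem_coe]
    rcases coverW hP with ⟨Q, hQ, h⟩ | ⟨m, hm, A, hA, h⟩ | ⟨j, l, hjl, A, hA, B, hB, h⟩
    · left
      rw [hA0, mem_image]; exact ⟨Q, hQ, h.symm⟩
    · right; left
      rw [hA1, mem_biUnion]
      refine ⟨m, ?_, ?_⟩
      · rw [mem_filter, mem_range]; exact ⟨by omega, hm⟩
      · rw [mem_image]; exact ⟨A, hA, h.symm⟩
    · have hm : (j, l) ∈ (range N ×ˢ range N).filter (fun p => p.1 + p.2 + 2 = n) := by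
        rw [mem_filter, mem_product, mem_range, mem_range]
        refine ⟨⟨?_, ?_⟩, hjl⟩
        · simp only; omega
        · simp only; omega
      rcases h with h | h
      · right; right; left
        rw [hA2, mem_biUnion]
        refine ⟨(j, l), hm, ?_⟩
        rw [mem_image]; exact ⟨(A, B), mem_product.2 ⟨hA, hB⟩, h.symm⟩
      · right; right; right
        rw [hA2, mem_biUnion]
        refine ⟨(j, l), hm, ?_⟩
        rw [mem_image]; exact ⟨(A, B), mem_product.2 ⟨hA, hB⟩, h.symm⟩
  have c0 : A0.card ≤ Hn n := card_image_le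
  have c1 : A1.card ≤ ∑ m ∈ (range N).filter (fun m => m + 1 = n), Hn m := by
    refine card_biUnion_le.trans (sum_le_sum fun m _ => card_image_le)
  have c2 : ∀ e, (A2 e).card ≤ ∑ p ∈ (range N ×ˢ range N).filter (fun p => p.1 + p.2 + 2 = n),
      Hn p.1 * Hn p.2 := by
    intro e
    refine card_biUnion_le.trans (sum_le_sum fun p _ => ?_)
    refine card_image_le.trans ?_
    rw [card_product]; rfl
  have h1 : an n ≤ (A0 ∪ (A1 ∪ (A2 (0, -1) ∪ A2 (-1, 1)))).card := by
    unfold an
    rw [← Set.ncard_coe_finset]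
    exact Set.ncard_le_ncard hsub (Finset.finite_toSet _)
  refine h1.trans ?_
  have d1 := card_union_le A0 (A1 ∪ (A2 (0, -1) ∪ A2 (-1, 1)))
  have d2 := card_union_le A1 (A2 (0, -1) ∪ A2 (-1, 1))
  have d3 := card_union_le (A2 (0, -1)) (A2 (-1, 1))
  have c3 := c2 (0, -1)
  have c4 := c2 (-1, 1)
  omega

lemma mu_gt : 1 < mu := by
  unfold mu
  have h : Real.cos (Real.pi / 3) < Real.cos (Real.pi / 8) := by
    apply Real.cos_lt_cos_of_nonneg_of_le_pi_div_two
    · positivity
    · linarith [Real.pi_pos]
    · linarith [Real.pi_pos]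
  rw [Real.cos_pi_div_three] at h
  linarith

lemma xc_pos : 0 < xc := by
  unfold xc
  have := mu_gt
  positivity

lemma bs_empty {T n : ℕ} (h : n < T) : (bs T n).card = 0 := by
  rw [card_eq_zero, eq_empty_iff_forall_notMem]
  intro P hP
  rw [mem_bs] at hP
  obtain ⟨v, w, r, rfl, -, -⟩ := hP.1.cases
  have h1 := F0_bound hP.1 v (by simp)
  have h2 := hP.2
  simp only [List.headI_cons] at h2
  omega

lemma bs_gf {x : ℝ} (hx : 0 < x) (hx1 : x < xc)
    (hβ : ∀ T N : ℕ, ∑ n ∈ Finset.range N, xc ^ (n + 1) *
      (((saw (St T) n).filter (fun P => F0 P.headI = 3 * T + 1)).card : ℝ) ≤ 1) (T N : ℕ) :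
    gf (fun n => (bs T n).card) x N ≤ xc⁻¹ * (x / xc) ^ T := by
  have hxc := xc_pos
  have hq : 0 < x / xc := by positivity
  have hq1 : x / xc ≤ 1 := by rw [div_le_one hxc]; exact hx1.le
  have h1 := hβ T N
  have h2 : gf (fun n => (bs T n).card) x N ≤ ∑ n ∈ range N, (xc⁻¹ * (x / xc) ^ T) *
      (xc ^ (n + 1) * ((bs T n).card : ℝ)) := by
    unfold gf
    refine sum_le_sum fun n _ => ?_
    by_cases hn : n < T
    · simp only [bs_empty hn]; simp
    · have h3 : (x / xc) ^ n ≤ (x / xc) ^ T := pow_le_pow_of_le_one hq.le hq1 (by omega)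
      have h4 : x ^ n = xc⁻¹ * (x / xc) ^ n * xc ^ (n + 1) := by
        rw [div_pow, pow_succ]; field_simp
      simp only
      rw [h4, ← mul_assoc]
      gcongr
  refine h2.trans ?_
  rw [← mul_sum]
  have h5 : ∑ n ∈ range N, xc ^ (n + 1) * ((bs T n).card : ℝ) ≤ 1 := h1
  have h6 : 0 ≤ xc⁻¹ * (x / xc) ^ T := by positivity
  calc xc⁻¹ * (x / xc) ^ T * ∑ n ∈ range N, xc ^ (n + 1) * ((bs T n).card : ℝ)
      ≤ xc⁻¹ * (x / xc) ^ T * 1 := mul_le_mul_of_nonneg_left h5 h6
    _ = _ := by ring

lemma strip_bound {x : ℝ} (hx : 0 < x) (hx1 : x < xc)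
    (hβ : ∀ T N : ℕ, ∑ n ∈ Finset.range N, xc ^ (n + 1) *
      (((saw (St T) n).filter (fun P => F0 P.headI = 3 * T + 1)).card : ℝ) ≤ 1) :
    ∃ M : ℝ, ∀ T N, gf (fun n => (saw (St T) n).card) x N ≤ M := by
  have hxc := xc_pos
  have hq : 0 < x / xc := by positivity
  have hq1 : x / xc < 1 := by rw [div_lt_one hxc]; exact hx1
  set q := x / xc with hqd
  set K : ℝ := (1 + x + x⁻¹ + x ^ 2) * xc⁻¹ with hK
  have hK0 : 0 < K := by positivity
  set M0 : ℝ := 1 + (1 + (1 + x) * (xc⁻¹ * q ^ 0)) with hM0
  have hM0p : 0 < M0 := by positivity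
  have key : ∀ T N, 1 + gf (fun n => (saw (St T) n).card) x N ≤
      M0 * Real.exp (K * ∑ t ∈ range T, q ^ (t + 1)) := by
    intro T N
    induction T with
    | zero =>
      simp only [range_zero, sum_empty, mul_zero, Real.exp_zero, mul_one]
      have := gf_zero hx (fun N => bs_gf hx hx1 hβ 0 N) N
      rw [hM0]; linarith
    | succ T ih =>
      have h1 := gf_step T hx (fun N => bs_gf hx hx1 hβ (T + 1) N) N
      refine h1.trans ?_
      have h5 : Real.exp (K * ∑ t ∈ range (T + 1), q ^ (t + 1)) =
          Real.exp (K * ∑ t ∈ range T, q ^ (t + 1)) * Real.exp (K * q ^ (T + 1)) := by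
        rw [sum_range_succ, mul_add, Real.exp_add]
      rw [h5, ← mul_assoc M0]
      have h2 : 1 + (1 + x + x⁻¹ + x ^ 2) * (xc⁻¹ * q ^ (T + 1)) ≤ Real.exp (K * q ^ (T + 1)) := by
        have := Real.add_one_le_exp (K * q ^ (T + 1))
        rw [hK] at this ⊢
        linarith
      have h3 := gf_nonneg (fun n => (saw (St T) n).card) hx.le N
      have h4 : 0 ≤ 1 + (1 + x + x⁻¹ + x ^ 2) * (xc⁻¹ * q ^ (T + 1)) := by positivity
      exact mul_le_mul ih h2 h4 (by positivity)
  refine ⟨M0 * Real.exp (K * (q * (1 - q)⁻¹)), fun T N => ?_⟩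
  have h1 := key T N
  have h2 : ∑ t ∈ range T, q ^ (t + 1) ≤ q * (1 - q)⁻¹ := by
    have e : ∑ t ∈ range T, q ^ (t + 1) = q * ∑ t ∈ range T, q ^ t := by
      rw [mul_sum]; refine sum_congr rfl fun t _ => by rw [pow_succ]; ring
    rw [e]
    refine mul_le_mul_of_nonneg_left ?_ hq.le
    rw [← tsum_geometric_of_lt_one hq.le hq1]
    exact (summable_geometric_of_lt_one hq.le hq1).sum_le_tsum _ (fun _ _ => by positivity)
  have h3 : Real.exp (K * ∑ t ∈ range T, q ^ (t + 1)) ≤ Real.exp (K * (q * (1 - q)⁻¹)) :=
    Real.exp_le_exp.2 (mul_le_mul_of_nonneg_left h2 hK0.le)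
  have h4 := mul_le_mul_of_nonneg_left h3 hM0p.le
  linarith

/-- Hammersley-Welsh. -/
theorem hammersley_welsh
    (hβ : ∀ T N : ℕ, ∑ n ∈ Finset.range N, xc ^ (n + 1) *
      (((saw (St T) n).filter (fun P => F0 P.headI = 3 * T + 1)).card : ℝ) ≤ 1)
    {x : ℝ} (hx : 0 < x) (hx1 : x < xc) : ∃ C : ℝ, ∀ n, (an n : ℝ) * x ^ n ≤ C := by
  obtain ⟨M, hM⟩ := strip_bound hx hx1 hβ
  have hH : ∀ N, gf Hn x N ≤ M := by
    intro N
    refine le_trans ?_ (hM N N)
    unfold gf
    refine sum_le_sum fun n hn => ?_
    have : Hn n ≤ (saw (St N) n).card := card_le_card (saw_Hp_subset (by rw [mem_range] at hn; omega))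
    have : (Hn n : ℝ) ≤ ((saw (St N) n).card : ℝ) := by exact_mod_cast this
    gcongr
  have hM0 : 0 ≤ M := (gf_nonneg Hn hx.le 0).trans (hH 0)
  refine ⟨M + (x * M + 2 * (x ^ 2 * (M * M))), fun n => ?_⟩
  have h1 : (an n : ℝ) * x ^ n ≤ ∑ k ∈ range (n + 1), x ^ k * (an k : ℝ) := by
    have := single_le_sum (s := range (n + 1)) (f := fun k => x ^ k * (an k : ℝ))
      (fun _ _ => by positivity) (mem_range.2 (Nat.lt_succ_self n))
    linarith
  refine h1.trans ?_
  set N := n + 1
  have h2 : ∑ k ∈ range N, x ^ k * (an k : ℝ) ≤ ∑ k ∈ range N, (x ^ k * (Hn k : ℝ) +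
      (x ^ k * ((∑ m ∈ (range N).filter (fun m => m + 1 = k), Hn m : ℕ) : ℝ) +
      2 * (x ^ k * ((∑ p ∈ (range N ×ˢ range N).filter (fun p => p.1 + p.2 + 2 = k), Hn p.1 * Hn p.2 : ℕ) : ℝ)))) := by
    refine sum_le_sum fun k hk => ?_
    have h3 := an_le k N (by rw [mem_range] at hk; omega)
    have h4 : (an k : ℝ) ≤ (Hn k : ℝ) + (((∑ m ∈ (range N).filter (fun m => m + 1 = k), Hn m : ℕ) : ℝ) +
      2 * ((∑ p ∈ (range N ×ˢ range N).filter (fun p => p.1 + p.2 + 2 = k), Hn p.1 * Hn p.2 : ℕ) : ℝ)) := by
      exact_mod_cast h3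
    have h5 := mul_le_mul_of_nonneg_left h4 (pow_nonneg hx.le k)
    refine h5.trans (le_of_eq ?_)
    ring
  refine h2.trans ?_
  rw [sum_add_distrib, sum_add_distrib, ← mul_sum]
  have k1 := gf_shift Hn hx.le N
  have k3 := gf_conv Hn Hn hx.le N
  have k4 : ∑ k ∈ range N, x ^ k * (Hn k : ℝ) = gf Hn x N := rfl
  rw [k4]
  have g0 := gf_nonneg Hn hx.le N
  have g1 := hH N
  have e1 : x * gf Hn x N ≤ x * M := mul_le_mul_of_nonneg_left g1 hx.le
  have e2 : x ^ 2 * (gf Hn x N * gf Hn x N) ≤ x ^ 2 * (M * M) :=
    mul_le_mul_of_nonneg_left (mul_le_mul g1 g1 g0 hM0) (by positivity)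
  linarith

end Pool.Agent.Hhelper63.HW
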