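import Pool.Agent.Hhelper14.SAW.Base

/-!
Preliminaries for the Hammersley-Welsh bound: decompositions of lists, walks in domains.
-/

namespace Pool.Agent.Hhelper63.HW

open Pool.Agent.Hhelper14.SAW

lemma split_first {α : Type*} (p : α → Prop) [DecidablePred p] : ∀ (P : List α), (∃ x ∈ P, p x) →
    ∃ s v t, P = s ++ v :: t ∧ p v ∧ ∀ x ∈ s, ¬ p x
  | [], h => by obtain ⟨x, hx, -⟩ := h; simp at hx
  | a :: P, h => by
    by_cases ha : p a
    · exact ⟨[], a, P, rfl, ha, by simp⟩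
    · have h' : ∃ x ∈ P, p x := by
        obtain ⟨x, hx, hpx⟩ := h
        rcases List.mem_cons.1 hx with rfl | hx
        · exact absurd hpx ha
        · exact ⟨x, hx, hpx⟩
      obtain ⟨s, v, t, h1, h2, h3⟩ := split_first p P h'
      refine ⟨a :: s, v, t, by rw [h1]; rfl, h2, ?_⟩
      intro x hx
      rcases List.mem_cons.1 hx with rfl | hx
      · exact ha
      · exact h3 x hx

lemma split_last {α : Type*} (p : α → Prop) [DecidablePred p] (P : List α) (h : ∃ x ∈ P, p x) :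
    ∃ s v t, P = s ++ v :: t ∧ p v ∧ ∀ x ∈ t, ¬ p x := by
  obtain ⟨s, v, t, h1, h2, h3⟩ := split_first p P.reverse (by
    obtain ⟨x, hx, hpx⟩ := h
    exact ⟨x, List.mem_reverse.2 hx, hpx⟩)
  refine ⟨t.reverse, v, s.reverse, ?_, h2, ?_⟩
  · have := congrArg List.reverse h1
    rw [List.reverse_reverse] at this
    rw [this]; simp
  · intro x hx
    exact h3 x (List.mem_reverse.1 hx)

variable {p : ℤ × ℤ → Prop}

lemma isSaw_iff {n : ℕ} {P : List (ℤ × ℤ)} : IsSaw p n P ↔
    P.length = n + 2 ∧ P.Nodup ∧ HChain P ∧ [o, o'] <:+ P ∧ ∀ x ∈ P, x = o' ∨ p x := by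
  constructor
  · rintro ⟨h1, h2, h3, t, ht, hx⟩
    refine ⟨h1, h2, h3, ⟨t, ht.symm⟩, ?_⟩
    intro x hxP
    rw [ht] at hxP
    simp only [List.mem_append, List.mem_cons, List.not_mem_nil, or_false] at hxP
    rcases hxP with h | h | h
    · exact Or.inr (hx x (by simp [h]))
    · exact Or.inr (hx x (by simp [h]))
    · exact Or.inl h
  · rintro ⟨h1, h2, h3, ⟨t, ht⟩, hx⟩
    refine ⟨h1, h2, h3, t, ht.symm, ?_⟩
    intro x hxt
    have hxP : x ∈ P := by
      rw [← ht]
      simp only [List.mem_append, List.mem_cons, List.not_mem_nil, or_false] at hxt ⊢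
      tauto
    rcases hx x hxP with h | h
    · exfalso
      subst h
      rw [← ht] at h2
      have h4 : ((t ++ [o]) ++ [o']).Nodup := by simpa using h2
      exact (List.nodup_append.1 h4).2.2 o' hxt o' (by simp) rfl
    · exact h

lemma IsSaw.mono {q : ℤ × ℤ → Prop} {n : ℕ} {P : List (ℤ × ℤ)} (h : IsSaw p n P)
    (hpq : ∀ x ∈ P, p x → q x) : IsSaw q n P := by
  obtain ⟨h1, h2, h3, t, ht, hx⟩ := h
  refine ⟨h1, h2, h3, t, ht, fun x hxt => hpq x ?_ (hx x hxt)⟩
  rw [ht]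
  simp only [List.mem_append, List.mem_cons, List.not_mem_nil, or_false] at hxt ⊢
  tauto

lemma not_p_o' (hp : Dom p) : ¬ p o' := fun h => hp.off _ h slit_o'

/-- Earlier part of a walk. -/
lemma drop_saw {n : ℕ} {s : List (ℤ × ℤ)} {v w : ℤ × ℤ} {r : List (ℤ × ℤ)}
    (h : IsSaw p n (s ++ v :: w :: r)) : IsSaw p r.length (v :: w :: r) := by
  rw [isSaw_iff] at h ⊢
  obtain ⟨h1, h2, h3, h4, h5⟩ := h
  refine ⟨by simp, (List.nodup_append.1 h2).2.1, (List.isChain_append.1 h3).2.1, ?_, ?_⟩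
  · obtain ⟨t, ht⟩ := h4
    rcases List.append_eq_append_iff.1 ht with ⟨c, hc1, hc2⟩ | ⟨c, hc1, hc2⟩
    · -- s = t ++ c, [o,o'] = c ++ v :: w :: r
      have hlen := congrArg List.length hc2
      simp at hlen
      have : c = [] := List.length_eq_zero_iff.1 (by omega)
      subst this
      rw [List.nil_append] at hc2
      rw [← hc2]
    · exact ⟨c, hc2.symm⟩
  · intro x hx
    exact h5 x (List.mem_append_right _ hx)

lemma F0_step {x y : ℤ × ℤ} (h : Adj x y) : F0 x ≤ F0 y + 2 ∧ F0 y ≤ F0 x + 2 := by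
  obtain ⟨-, -, h⟩ := h
  simp only [U, F0, Prod.fst_sub, Prod.snd_sub] at *
  omega

lemma F0_bound : ∀ {n : ℕ} {P : List (ℤ × ℤ)}, IsSaw p n P → ∀ x ∈ P, F0 x ≤ 2 * n
  | 0, P, h, x, hx => by
    obtain ⟨hl, -, -, t, ht, -⟩ := h
    have : t = [] := by
      rw [ht] at hl
      simp at hl
      exact hl
    rw [ht, this] at hx
    simp only [List.nil_append, List.mem_cons, List.not_mem_nil, or_false] at hx
    rcases hx with rfl | rfl <;> simp [F0, o, o']
  | n + 1, P, h, x, hx => by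
    obtain ⟨u, v, w, r, rfl, h1, h2, h3, h4⟩ := isSaw_succ_iff.1 h
    have ih := F0_bound h1
    rcases List.mem_cons.1 hx with rfl | hx
    · have := ih v (by simp)
      have := F0_step h2
      push_cast; omega
    · have := ih x hx
      push_cast; omega

lemma hon_F0 {z : ℤ × ℤ} (h : hon z) : F0 z % 3 ≠ 2 := by
  unfold hon at h
  unfold F0
  omega

/-- The half plane. -/
def Hp (z : ℤ × ℤ) : Prop := hon z ∧ 0 ≤ F0 z

instance : DecidablePred Hp := fun z => by unfold Hp; infer_instance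

lemma Hp_dom : Dom Hp := by
  refine ⟨⟨by decide, by decide⟩, fun x h => h.1, ?_⟩
  intro x h hs
  simp only [Hp, slit, F0] at h hs
  omega

lemma saw_Hp_subset {T n : ℕ} (h : n ≤ T) : saw Hp n ⊆ saw (St T) n := by
  intro P hP
  rw [mem_saw Hp_dom] at hP
  rw [mem_saw (St_dom T)]
  refine IsSaw.mono hP ?_
  intro x hx hpx
  have := F0_bound hP x hx
  refine ⟨hpx.1, hpx.2, ?_⟩
  omega

end Pool.Agent.Hhelper63.HW
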