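import Pool.Agent.Hhelper63.SAW.HWStrip

/-!
Generating functions of walks in strips.
-/

namespace Pool.Agent.Hhelper63.HW

open Pool.Agent.Hhelper14.SAW Finset

lemma card_step (S n N : ℕ) (hn : n ≤ N) : (saw (St (S + 1)) n).card ≤ (saw (St S) n).card +
    ((bs (S + 1) n).card + (∑ m ∈ (range N).filter (fun m => m + 1 = n), (bs (S + 1) m).card +
    ((bs (S + 1) (n + 1)).card +
    ∑ p ∈ (range N ×ˢ range N).filter (fun p => p.1 + p.2 + 2 = n),
      (bs (S + 1) p.1).card * (saw (St S) p.2).card))) := by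
  classical
  set A1 : Finset (List (ℤ × ℤ)) := ((range N).filter (fun m => m + 1 = n)).biUnion
    (fun m => (bs (S + 1) m).image (fun Q => gz Q :: Q)) with hA1
  set A2 : Finset (List (ℤ × ℤ)) := (bs (S + 1) (n + 1)).image List.tail with hA2
  set A3 : Finset (List (ℤ × ℤ)) := ((range N ×ˢ range N).filter (fun p => p.1 + p.2 + 2 = n)).biUnion
    (fun p => (bs (S + 1) p.1 ×ˢ saw (St S) p.2).image
      (fun q => q.2.map (fun z => gz q.1 + (-1, 0) - z) ++ q.1)) with hA3
  have hsub : saw (St (S + 1)) n ⊆ saw (St S) n ∪ (bs (S + 1) n ∪ (A1 ∪ (A2 ∪ A3))) := by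
    intro P hP
    simp only [mem_union]
    rcases cover hP with h | h | ⟨m, hm, Q, hQ, h⟩ | ⟨Q, hQ, h⟩ | ⟨m, l, hml, Q, hQ, R, hR, h⟩
    · exact Or.inl h
    · exact Or.inr (Or.inl h)
    · right; right; left
      rw [hA1, mem_biUnion]
      refine ⟨m, ?_, ?_⟩
      · rw [mem_filter, mem_range]; exact ⟨by omega, hm⟩
      · rw [mem_image]; exact ⟨Q, hQ, h.symm⟩
    · right; right; right; left
      rw [hA2, mem_image]; exact ⟨Q, hQ, h.symm⟩
    · right; right; right; right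
      rw [hA3, mem_biUnion]
      refine ⟨(m, l), ?_, ?_⟩
      · rw [mem_filter, mem_product, mem_range, mem_range]
        refine ⟨⟨?_, ?_⟩, hml⟩
        · simp only; omega
        · simp only; omega
      · rw [mem_image]; exact ⟨(Q, R), mem_product.2 ⟨hQ, hR⟩, h.symm⟩
  have c1 : A1.card ≤ ∑ m ∈ (range N).filter (fun m => m + 1 = n), (bs (S + 1) m).card := by
    refine card_biUnion_le.trans (sum_le_sum fun m _ => card_image_le)
  have c2 : A2.card ≤ (bs (S + 1) (n + 1)).card := card_image_le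
  have c3 : A3.card ≤ ∑ p ∈ (range N ×ˢ range N).filter (fun p => p.1 + p.2 + 2 = n),
      (bs (S + 1) p.1).card * (saw (St S) p.2).card := by
    refine card_biUnion_le.trans (sum_le_sum fun p _ => ?_)
    refine card_image_le.trans ?_
    rw [card_product]
  refine (card_le_card hsub).trans ?_
  have d1 := card_union_le (saw (St S) n) (bs (S + 1) n ∪ (A1 ∪ (A2 ∪ A3)))
  have d2 := card_union_le (bs (S + 1) n) (A1 ∪ (A2 ∪ A3))
  have d3 := card_union_le A1 (A2 ∪ A3)
  have d4 := card_union_le A2 A3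
  omega

lemma card_step0 (n N : ℕ) (hn : n ≤ N) : (saw (St 0) n).card ≤ (if n = 0 then 1 else 0) +
    ((bs 0 n).card + ∑ m ∈ (range N).filter (fun m => m + 1 = n), (bs 0 m).card) := by
  classical
  rcases Nat.eq_zero_or_pos n with rfl | hpos
  · rw [if_pos rfl]
    have : (saw (St 0) 0).card = 1 := by simp [saw]
    omega
  set A1 : Finset (List (ℤ × ℤ)) := ((range N).filter (fun m => m + 1 = n)).biUnion
    (fun m => (bs 0 m).image (fun Q => gz Q :: Q)) with hA1
  have hsub : saw (St 0) n ⊆ bs 0 n ∪ A1 := by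
    intro P hP
    simp only [mem_union]
    rcases cover0 hP with h | h | ⟨m, hm, Q, hQ, h⟩
    · omega
    · exact Or.inl h
    · right
      rw [hA1, mem_biUnion]
      refine ⟨m, ?_, ?_⟩
      · rw [mem_filter, mem_range]; exact ⟨by omega, hm⟩
      · rw [mem_image]; exact ⟨Q, hQ, h.symm⟩
  have c1 : A1.card ≤ ∑ m ∈ (range N).filter (fun m => m + 1 = n), (bs 0 m).card := by
    refine card_biUnion_le.trans (sum_le_sum fun m _ => card_image_le)
  have d1 := card_union_le (bs 0 n) A1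
  have := card_le_card hsub
  omega

/-- Truncated generating function. -/
noncomputable def gf (a : ℕ → ℕ) (x : ℝ) (N : ℕ) : ℝ := ∑ n ∈ range N, x ^ n * (a n : ℝ)

lemma gf_nonneg (a : ℕ → ℕ) {x : ℝ} (hx : 0 ≤ x) (N : ℕ) : 0 ≤ gf a x N :=
  sum_nonneg fun _ _ => by positivity

lemma gf_mono (a : ℕ → ℕ) {x : ℝ} (hx : 0 ≤ x) {N M : ℕ} (h : N ≤ M) : gf a x N ≤ gf a x M := by
  unfold gf
  refine sum_le_sum_of_subset_of_nonneg ?_ fun _ _ _ => by positivity
  intro n hn
  rw [mem_range] at *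
  omega

lemma gf_shift (a : ℕ → ℕ) {x : ℝ} (hx : 0 ≤ x) (N : ℕ) :
    ∑ n ∈ range N, x ^ n * ((∑ m ∈ (range N).filter (fun m => m + 1 = n), a m : ℕ) : ℝ) ≤ x * gf a x N := by
  have e1 : ∑ n ∈ range N, x ^ n * ((∑ m ∈ (range N).filter (fun m => m + 1 = n), a m : ℕ) : ℝ) =
      ∑ n ∈ range N, ∑ m ∈ range N, if m + 1 = n then x ^ n * (a m : ℝ) else 0 := by
    refine sum_congr rfl fun n _ => ?_
    push_cast
    rw [mul_sum, sum_filter]
  rw [e1, sum_comm]
  unfold gf
  rw [mul_sum]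
  refine sum_le_sum fun m _ => ?_
  have hz : ∀ n ∈ range N, (if m + 1 = n then x ^ n * (a m : ℝ) else 0) =
    if m + 1 = n then x ^ (m + 1) * (a m : ℝ) else 0 := by
    intro n _
    split_ifs with h
    · rw [h]
    · rfl
  rw [sum_congr rfl hz, sum_ite_eq]
  split_ifs with h
  · rw [pow_succ]; nlinarith [mul_nonneg (pow_nonneg hx m) (Nat.cast_nonneg (α := ℝ) (a m))]
  · positivity

lemma gf_conv (a b : ℕ → ℕ) {x : ℝ} (hx : 0 ≤ x) (N : ℕ) :
    ∑ n ∈ range N, x ^ n * ((∑ p ∈ (range N ×ˢ range N).filter (fun p => p.1 + p.2 + 2 = n),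
      a p.1 * b p.2 : ℕ) : ℝ) ≤ x ^ 2 * (gf a x N * gf b x N) := by
  have e1 : ∑ n ∈ range N, x ^ n * ((∑ p ∈ (range N ×ˢ range N).filter (fun p => p.1 + p.2 + 2 = n),
      a p.1 * b p.2 : ℕ) : ℝ) =
      ∑ n ∈ range N, ∑ p ∈ range N ×ˢ range N, if p.1 + p.2 + 2 = n then x ^ n * ((a p.1 : ℝ) * b p.2) else 0 := by
    refine sum_congr rfl fun n _ => ?_
    push_cast
    rw [mul_sum, sum_filter]
  have e2 : x ^ 2 * (gf a x N * gf b x N) =
      ∑ p ∈ range N ×ˢ range N, x ^ (p.1 + p.2 + 2) * ((a p.1 : ℝ) * b p.2) := by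
    unfold gf
    rw [sum_mul_sum, sum_product, mul_sum]
    refine sum_congr rfl fun i _ => ?_
    rw [mul_sum]
    refine sum_congr rfl fun j _ => ?_
    simp only
    ring
  rw [e1, sum_comm, e2]
  refine sum_le_sum fun p _ => ?_
  have hz : ∀ n ∈ range N, (if p.1 + p.2 + 2 = n then x ^ n * ((a p.1 : ℝ) * b p.2) else 0) =
    if p.1 + p.2 + 2 = n then x ^ (p.1 + p.2 + 2) * ((a p.1 : ℝ) * b p.2) else 0 := by
    intro n _
    split_ifs with h
    · rw [h]
    · rfl
  rw [sum_congr rfl hz, sum_ite_eq]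
  split_ifs with h
  · exact le_refl _
  · positivity

lemma gf_shift' (a : ℕ → ℕ) {x : ℝ} (hx : 0 < x) (N : ℕ) :
    ∑ n ∈ range N, x ^ n * (a (n + 1) : ℝ) ≤ x⁻¹ * gf a x (N + 1) := by
  unfold gf
  rw [sum_range_succ', mul_add, mul_sum]
  have : ∀ n ∈ range N, x⁻¹ * (x ^ (n + 1) * (a (n + 1) : ℝ)) = x ^ n * (a (n + 1) : ℝ) := by
    intro n _
    rw [pow_succ]
    field_simp
  rw [sum_congr rfl this]
  have : 0 ≤ x⁻¹ * (x ^ 0 * (a 0 : ℝ)) := by positivity
  linarith

/-- Recursion for the generating functions. -/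
lemma gf_step (S : ℕ) {x β : ℝ} (hx : 0 < x) (hβ : ∀ N, gf (fun n => (bs (S + 1) n).card) x N ≤ β) (N : ℕ) :
    1 + gf (fun n => (saw (St (S + 1)) n).card) x N ≤
      (1 + gf (fun n => (saw (St S) n).card) x N) * (1 + (1 + x + x⁻¹ + x ^ 2) * β) := by
  have h0 : 0 ≤ β := (gf_nonneg _ hx.le 0).trans (hβ 0)
  have key : gf (fun n => (saw (St (S + 1)) n).card) x N ≤ gf (fun n => (saw (St S) n).card) x N +
      (gf (fun n => (bs (S + 1) n).card) x N + (x * gf (fun n => (bs (S + 1) n).card) x N +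
      (x⁻¹ * gf (fun n => (bs (S + 1) n).card) x (N + 1) +
      x ^ 2 * (gf (fun n => (bs (S + 1) n).card) x N * gf (fun n => (saw (St S) n).card) x N)))) := by
    have h1 : gf (fun n => (saw (St (S + 1)) n).card) x N ≤ ∑ n ∈ range N, (x ^ n * ((saw (St S) n).card : ℝ) +
        (x ^ n * ((bs (S + 1) n).card : ℝ) +
        (x ^ n * ((∑ m ∈ (range N).filter (fun m => m + 1 = n), (bs (S + 1) m).card : ℕ) : ℝ) +
        (x ^ n * ((bs (S + 1) (n + 1)).card : ℝ) +
        x ^ n * ((∑ p ∈ (range N ×ˢ range N).filter (fun p => p.1 + p.2 + 2 = n),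
          (bs (S + 1) p.1).card * (saw (St S) p.2).card : ℕ) : ℝ))))) := by
      unfold gf
      refine sum_le_sum fun n hn => ?_
      have h2 := card_step S n N (by rw [mem_range] at hn; omega)
      have h3 : ((saw (St (S + 1)) n).card : ℝ) ≤ ((saw (St S) n).card : ℝ) +
        (((bs (S + 1) n).card : ℝ) + (((∑ m ∈ (range N).filter (fun m => m + 1 = n), (bs (S + 1) m).card : ℕ) : ℝ) +
        (((bs (S + 1) (n + 1)).card : ℝ) +
        ((∑ p ∈ (range N ×ˢ range N).filter (fun p => p.1 + p.2 + 2 = n),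
          (bs (S + 1) p.1).card * (saw (St S) p.2).card : ℕ) : ℝ)))) := by
        exact_mod_cast h2
      have h4 := mul_le_mul_of_nonneg_left h3 (pow_nonneg hx.le n)
      refine h4.trans (le_of_eq ?_)
      ring
    refine h1.trans ?_
    rw [sum_add_distrib, sum_add_distrib, sum_add_distrib, sum_add_distrib]
    have k1 := gf_shift (fun n => (bs (S + 1) n).card) hx.le N
    have k2 := gf_shift' (fun n => (bs (S + 1) n).card) hx N
    have k3 := gf_conv (fun n => (bs (S + 1) n).card) (fun n => (saw (St S) n).card) hx.le N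
    have k4 : ∑ n ∈ range N, x ^ n * ((saw (St S) n).card : ℝ) = gf (fun n => (saw (St S) n).card) x N := rfl
    have k5 : ∑ n ∈ range N, x ^ n * ((bs (S + 1) n).card : ℝ) = gf (fun n => (bs (S + 1) n).card) x N := rfl
    rw [k4, k5]
    linarith
  have hB := hβ N
  have hB' := hβ (N + 1)
  have hg := gf_nonneg (fun n => (saw (St S) n).card) hx.le N
  set g := gf (fun n => (saw (St S) n).card) x N
  set B := gf (fun n => (bs (S + 1) n).card) x N
  set B' := gf (fun n => (bs (S + 1) n).card) x (N + 1)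
  have hBn : 0 ≤ B := gf_nonneg _ hx.le N
  have e1 : x * B ≤ x * β := mul_le_mul_of_nonneg_left hB hx.le
  have e2 : x⁻¹ * B' ≤ x⁻¹ * β := mul_le_mul_of_nonneg_left hB' (by positivity)
  have e3 : x ^ 2 * (B * g) ≤ x ^ 2 * (β * g) :=
    mul_le_mul_of_nonneg_left (mul_le_mul_of_nonneg_right hB hg) (by positivity)
  have e4 : 0 ≤ g * ((1 + x + x⁻¹) * β) := by positivity
  have e5 : 0 ≤ x ^ 2 * β := by positivity
  nlinarith

lemma gf_zero {x β : ℝ} (hx : 0 < x) (hβ : ∀ N, gf (fun n => (bs 0 n).card) x N ≤ β) (N : ℕ) :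
    gf (fun n => (saw (St 0) n).card) x N ≤ 1 + (1 + x) * β := by
  have h0 : 0 ≤ β := (gf_nonneg _ hx.le 0).trans (hβ 0)
  have h1 : gf (fun n => (saw (St 0) n).card) x N ≤ ∑ n ∈ range N, ((if n = 0 then (1 : ℝ) else 0) +
        (x ^ n * ((bs 0 n).card : ℝ) +
        x ^ n * ((∑ m ∈ (range N).filter (fun m => m + 1 = n), (bs 0 m).card : ℕ) : ℝ))) := by
    unfold gf
    refine sum_le_sum fun n hn => ?_
    have h2 := card_step0 n N (by rw [mem_range] at hn; omega)
    have h3 : ((saw (St 0) n).card : ℝ) ≤ (if n = 0 then (1 : ℝ) else 0) +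
        (((bs 0 n).card : ℝ) + ((∑ m ∈ (range N).filter (fun m => m + 1 = n), (bs 0 m).card : ℕ) : ℝ)) := by
      exact_mod_cast h2
    have h4 := mul_le_mul_of_nonneg_left h3 (pow_nonneg hx.le n)
    refine h4.trans (le_of_eq ?_)
    split_ifs with h
    · subst h; simp
    · ring
  refine h1.trans ?_
  rw [sum_add_distrib, sum_add_distrib]
  have k1 := gf_shift (fun n => (bs 0 n).card) hx.le N
  have k5 : ∑ n ∈ range N, x ^ n * ((bs 0 n).card : ℝ) = gf (fun n => (bs 0 n).card) x N := rfl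
  have k6 : ∑ n ∈ range N, (if n = 0 then (1 : ℝ) else 0) ≤ 1 := by
    rw [sum_ite_eq']
    split_ifs <;> norm_num
  rw [k5]
  have hB := hβ N
  have e1 : x * gf (fun n => (bs 0 n).card) x N ≤ x * β := mul_le_mul_of_nonneg_left hB hx.le
  linarith

end Pool.Agent.Hhelper63.HW
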