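import Pool.Agent.Hhelper63.SAW.HWBasic

/-!
Strip decomposition of self-avoiding walks.
-/

namespace Pool.Agent.Hhelper63.HW

open Pool.Agent.Hhelper14.SAW

/-- Walks in the strip ending in the right column of the boundary. -/
def bs (T n : ℕ) : Finset (List (ℤ × ℤ)) := (saw (St T) n).filter (fun P => F0 P.headI = 3 * T + 1)

/-- The other left neighbour of the head. -/
def gz : List (ℤ × ℤ) → ℤ × ℤ
  | w :: u :: _ => if u = w + (0, -1) then w + (-1, 1) else w + (0, -1)
  | _ => o

lemma mem_bs {T n : ℕ} {P : List (ℤ × ℤ)} : P ∈ bs T n ↔ IsSaw (St T) n P ∧ F0 P.headI = 3 * T + 1 := by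
  unfold bs
  rw [Finset.mem_filter, mem_saw (St_dom T)]

lemma geomA {T : ℤ} {v w u : ℤ × ℤ} (h3 : Adj v w) (h4 : Adj w u) (h5 : F0 u ≤ 3 * T + 1)
    (hv : F0 v = 3 * T) (hw : F0 w = 3 * T + 1) (huv : v ≠ u) :
    v = if u = w + (0, -1) then w + (-1, 1) else w + (0, -1) := by
  obtain ⟨a, b⟩ := v
  obtain ⟨c, d⟩ := w
  obtain ⟨e, f⟩ := u
  obtain ⟨-, -, h3⟩ := h3
  obtain ⟨-, h6, h4⟩ := h4
  simp only [U, F0, hon, Prod.mk_sub_mk, Prod.mk_add_mk, Prod.mk.injEq, ne_eq] at *
  split_ifs with hif <;> simp only [Prod.mk.injEq] <;> omega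

lemma geomB {T : ℤ} {v y1 y2 : ℤ × ℤ} (a1 : Adj y1 (v + (0, 1))) (a2 : Adj (v + (0, 1)) y2)
    (hv : F0 v = 3 * T) (c1 : F0 y1 ≤ 3 * T + 1) (c2 : F0 y2 ≤ 3 * T + 1) (n1 : v ≠ y1) (n2 : v ≠ y2)
    (n3 : y1 ≠ y2) : False := by
  obtain ⟨a, b⟩ := v
  obtain ⟨c, d⟩ := y1
  obtain ⟨e, f⟩ := y2
  obtain ⟨a3, -, a1⟩ := a1
  obtain ⟨-, a4, a2⟩ := a2
  simp only [U, F0, hon, Prod.mk_sub_mk, Prod.mk_add_mk, Prod.mk.injEq, ne_eq] at *
  omega

/-- A walk in the strip whose head is in the left sublattice of the last column and whose second vertex is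
in the last column. -/
lemma head_left {T n : ℕ} {v w : ℤ × ℤ} {r : List (ℤ × ℤ)} (h : IsSaw (St T) n (v :: w :: r))
    (hv : F0 v = 3 * T) (hw : F0 w = 3 * T + 1) :
    ∃ m, m + 1 = n ∧ (w :: r) ∈ bs T m ∧ v = gz (w :: r) := by
  cases n with
  | zero =>
    exfalso
    rw [isSaw_zero_iff (St_dom T)] at h
    simp only [List.cons.injEq] at h
    rw [h.2.1] at hw
    simp only [F0, o'] at hw
    omega
  | succ m =>
    have h1 := h.tail
    refine ⟨m, rfl, mem_bs.2 ⟨h1.1, by simpa using hw⟩, ?_⟩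
    obtain ⟨w', u, r', he, hadj, hpw⟩ := h1.1.cases
    simp only [List.cons.injEq] at he
    obtain ⟨rfl, rfl⟩ := he
    have hvw : Adj v w := (List.isChain_cons_cons.1 h.2.2.1).1
    have huv : v ≠ u := by
      intro e
      exact h1.2.2 (by rw [e]; simp)
    have hu : St T u := by
      cases m with
      | zero =>
        exfalso
        have := (isSaw_zero_iff (St_dom T)).1 h1.1
        simp only [List.cons.injEq] at this
        rw [this.1] at hw
        simp only [F0, o] at hw
        omega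
      | succ k =>
        have h2 := h1.1.tail
        obtain ⟨u', x, r'', he, -, hpu⟩ := h2.1.cases
        simp only [List.cons.injEq] at he
        rw [he.1]; exact hpu
    unfold gz
    exact geomA hvw hadj hu.2.2 hv hw huv

/-- A walk ending in the left sublattice of the last column, coming from the left. -/
lemma head_right {T n : ℕ} (hT : 1 ≤ T) {v w : ℤ × ℤ} {r : List (ℤ × ℤ)} (h : IsSaw (St T) n (v :: w :: r))
    (hv : F0 v = 3 * T) (hw : F0 w ≠ 3 * T + 1) :
    (v + (0, 1)) :: v :: w :: r ∈ bs T (n + 1) := by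
  have hvw : Adj v w := (List.isChain_cons_cons.1 h.2.2.1).1
  have hw2 : w = v + (-1, 0) := by
    obtain ⟨a, b⟩ := v
    obtain ⟨c, d⟩ := w
    obtain ⟨h1, h2, h3⟩ := hvw
    simp only [U, F0, hon, Prod.mk_sub_mk, Prod.mk_add_mk, Prod.mk.injEq, ne_eq] at *
    omega
  have hadj : Adj (v + (0, 1)) v := by
    obtain ⟨a, b⟩ := v
    obtain ⟨h1, h2, h3⟩ := hvw
    simp only [Adj, U, F0, hon, Prod.mk_sub_mk, Prod.mk_add_mk, ne_eq] at *
    omega
  have hF : F0 (v + (0, 1)) = 3 * T + 1 := by
    simp only [F0, Prod.fst_add, Prod.snd_add] at *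
    omega
  have hS : St T (v + (0, 1)) := ⟨hadj.1, by omega, by omega⟩
  refine mem_bs.2 ⟨h.cons hadj hS ?_, by simpa using hF⟩
  intro hmem
  have hne1 : v + (0, 1) ≠ v := by
    intro e
    have := congrArg Prod.snd e
    simp at this
  have hne2 : v + (0, 1) ≠ w := by
    intro e
    rw [hw2] at e
    have := congrArg Prod.snd e
    simp at this
  have hmem2 : v + (0, 1) ∈ r := by
    simp only [List.mem_cons] at hmem
    tauto
  obtain ⟨r1, r2, hr⟩ := List.append_of_mem hmem2
  have hwr : w :: r1 ≠ [] := by simp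
  set y := v + (0, 1) with hy
  obtain ⟨q, y1, hq⟩ : ∃ q y1, w :: r1 = q ++ [y1] :=
    ⟨(w :: r1).dropLast, (w :: r1).getLast hwr, (List.dropLast_append_getLast hwr).symm⟩
  have hP : v :: w :: r = v :: (q ++ y1 :: y :: r2) := by
    rw [hr, ← List.cons_append, hq]; simp
  rw [isSaw_iff] at h
  obtain ⟨hl, hN, hC, hsuf, hp⟩ := h
  have hyo' : y ≠ o' := by
    intro e
    rw [e] at hF
    simp only [F0, o'] at hF
    omega
  -- r2 nonempty
  have hr2 : r2 ≠ [] := by
    rintro rfl
    obtain ⟨t, ht⟩ := hsuf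
    have e1 : (v :: w :: r).getLast (by simp) = y := by
      simp only [hP]; simp
    have e2 : (v :: w :: r).getLast (by simp) = o' := by
      simp only [← ht]; simp
    exact hyo' (e1.symm.trans e2)
  obtain ⟨y2, r3, rfl⟩ := List.exists_cons_of_ne_nil hr2
  rw [hP] at hN hC hp
  have hC2 : HChain (y1 :: y :: y2 :: r3) := by
    have : v :: (q ++ y1 :: y :: y2 :: r3) = (v :: q) ++ (y1 :: y :: y2 :: r3) := by simp
    rw [this] at hC
    exact (List.isChain_append.1 hC).2.1
  have a1 : Adj y1 y := (List.isChain_cons_cons.1 hC2).1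
  have a2 : Adj y y2 := (List.isChain_cons_cons.1 (List.isChain_cons_cons.1 hC2).2).1
  have hN2 : (v :: (q ++ y1 :: y :: y2 :: r3)).Nodup := hN
  have n1 : v ≠ y1 := by
    intro e
    exact (List.nodup_cons.1 hN2).1 (by rw [e]; simp)
  have n2 : v ≠ y2 := by
    intro e
    exact (List.nodup_cons.1 hN2).1 (by rw [e]; simp)
  have n3 : y1 ≠ y2 := by
    intro e
    have : (y1 :: y :: y2 :: r3).Nodup := (List.nodup_append.1 (List.nodup_cons.1 hN2).2).2.1
    exact (List.nodup_cons.1 this).1 (by rw [e]; simp)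
  have b1 : y1 = o' ∨ St T y1 := hp y1 (by simp)
  have b2 : y2 = o' ∨ St T y2 := hp y2 (by simp)
  have c1 : F0 y1 ≤ 3 * T + 1 := by
    rcases b1 with rfl | b1
    · simp only [F0, o']; omega
    · exact b1.2.2
  have c2 : F0 y2 ≤ 3 * T + 1 := by
    rcases b2 with rfl | b2
    · simp only [F0, o']; omega
    · exact b2.2.2
  exact geomB a1 a2 hv c1 c2 n1 n2 n3

lemma Adj.refl_left {a b y : ℤ × ℤ} (h : Adj a b) (hy : F0 y % 3 = 1) : Adj (y - a) (y - b) := by
  obtain ⟨h1, h2, h3⟩ := h
  obtain ⟨a1, a2⟩ := a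
  obtain ⟨b1, b2⟩ := b
  obtain ⟨y1, y2⟩ := y
  simp only [Adj, hon, U, F0, Prod.mk_sub_mk] at *
  omega

/-- Case of a walk which leaves the last column for ever. -/
lemma leave {S n : ℕ} {s : List (ℤ × ℤ)} {y v w : ℤ × ℤ} {r : List (ℤ × ℤ)}
    (h : IsSaw (St (S + 1)) n (s ++ y :: v :: w :: r)) (hs : ∀ x ∈ s, F0 x < 3 * (S + 1))
    (hy : F0 y < 3 * (S + 1)) (hv : 3 * (S + 1) ≤ F0 v) :
    ∃ m l, m + l + 2 = n ∧ ∃ Q ∈ bs (S + 1) m, ∃ R ∈ saw (St S) l,
      s ++ y :: v :: w :: r = R.map (fun z => gz Q + (-1, 0) - z) ++ Q := by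
  have h' := h
  rw [isSaw_iff] at h'
  obtain ⟨hl, hN, hC, hsuf, hp⟩ := h'
  have hC2 : HChain (y :: v :: w :: r) := (List.isChain_append.1 hC).2.1
  have ayv : Adj y v := (List.isChain_cons_cons.1 hC2).1
  have avw : Adj v w := (List.isChain_cons_cons.1 (List.isChain_cons_cons.1 hC2).2).1
  have hN2 : (y :: v :: w :: r).Nodup := (List.nodup_append.1 hN).2.1
  have hyw : y ≠ w := by
    intro e
    exact (List.nodup_cons.1 hN2).1 (by rw [e]; simp)
  have hFv : F0 v = 3 * ((S + 1 : ℕ) : ℤ) := by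
    obtain ⟨a, b⟩ := y
    obtain ⟨c, d⟩ := v
    obtain ⟨h1, h2, h3⟩ := ayv
    simp only [U, F0, hon, Prod.mk_sub_mk] at *
    push_cast
    omega
  have hyv : y = v + (-1, 0) := by
    obtain ⟨a, b⟩ := y
    obtain ⟨c, d⟩ := v
    obtain ⟨h1, h2, h3⟩ := ayv
    simp only [U, F0, hon, Prod.mk_sub_mk, Prod.mk_add_mk, Prod.mk.injEq] at *
    omega
  have hFw : F0 w = 3 * ((S + 1 : ℕ) : ℤ) + 1 := by
    obtain ⟨a, b⟩ := y
    obtain ⟨c, d⟩ := v
    obtain ⟨e, f⟩ := w
    obtain ⟨h1, h2, h3⟩ := avw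
    simp only [U, F0, hon, Prod.mk_sub_mk, Prod.mk_add_mk, Prod.mk.injEq, ne_eq] at *
    omega
  have hd : IsSaw (St (S + 1)) r.length (v :: w :: r) := by
    have : s ++ y :: v :: w :: r = (s ++ [y]) ++ v :: w :: r := by simp
    rw [this] at h
    exact drop_saw h
  obtain ⟨m, hm, hQ, hg⟩ := head_left hd hFv hFw
  have hFy : F0 y = 3 * (S : ℤ) + 1 := by
    rw [hyv]
    simp only [F0, Prod.fst_add, Prod.snd_add] at *
    push_cast at hFv
    omega
  refine ⟨m, s.length, ?_, w :: r, hQ, (s ++ [y, v]).map (fun z => y - z), ?_, ?_⟩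
  · simp only [List.length_append, List.length_cons] at hl
    omega
  · rw [mem_saw (St_dom S), isSaw_iff]
    refine ⟨by simp, ?_, ?_, ?_, ?_⟩
    · refine List.Nodup.map ?_ ?_
      · intro a b hab
        simpa using hab
      · have : s ++ y :: v :: w :: r = (s ++ [y, v]) ++ w :: r := by simp
        rw [this] at hN
        exact (List.nodup_append.1 hN).1
    · have : s ++ y :: v :: w :: r = (s ++ [y, v]) ++ w :: r := by simp
      rw [this] at hC
      have hC3 := (List.isChain_append.1 hC).1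
      rw [HChain, List.isChain_map]
      exact List.IsChain.imp (fun a b hab => Adj.refl_left hab (by omega)) hC3
    · refine ⟨s.map (fun z => y - z), ?_⟩
      have e1 : y - y = o := by rw [sub_self]; rfl
      have e2 : y - v = o' := by rw [hyv]; simp [o']
      rw [List.map_append, List.map_cons, List.map_cons, List.map_nil, e1, e2]
    · intro x hx
      rw [List.mem_map] at hx
      obtain ⟨z, hz, rfl⟩ := hx
      simp only [List.mem_append, List.mem_cons, List.not_mem_nil, or_false] at hz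
      by_cases hzv : z = v
      · left
        rw [hzv, hyv]; simp [o']
      · right
        have hz' : z ∈ s ∨ z = y := by tauto
        have hz1 : F0 z < 3 * (S + 1) := by
          rcases hz' with h | h
          · exact hs z h
          · rw [h]; exact hy
        have hz2 : St (S + 1) z := by
          have hmem : z ∈ s ++ y :: v :: w :: r := by
            rcases hz' with h | h
            · exact List.mem_append_left _ h
            · rw [h]; simp
          rcases hp z hmem with e | h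
          · exfalso
            -- o' occurs in the suffix
            have hlast : (s ++ y :: v :: w :: r).getLast (by simp) = o' := by
              obtain ⟨t, ht⟩ := hsuf
              simp only [← ht]; simp
            have hlast2 : (w :: r).getLast (by simp) = o' := by
              rw [← hlast]; simp
            have hmem2 : o' ∈ w :: r := by rw [← hlast2]; exact List.getLast_mem _
            have : s ++ y :: v :: w :: r = (s ++ [y, v]) ++ w :: r := by simp
            rw [this] at hN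
            refine (List.nodup_append.1 hN).2.2 o' ?_ o' hmem2 rfl
            rw [← e]
            simp only [List.mem_append, List.mem_cons, List.not_mem_nil, or_false]
            tauto
          · exact h
        have hz3 := hon_F0 hz2.1
        obtain ⟨h1, h2, h3⟩ := hz2
        obtain ⟨a, b⟩ := z
        obtain ⟨c, d⟩ := y
        simp only [St, hon, F0, Prod.mk_sub_mk] at *
        omega
  · rw [← hg, ← hyv]
    simp

/-- The decomposition, all cases. -/
lemma cover {S n : ℕ} {P : List (ℤ × ℤ)} (hP : P ∈ saw (St (S + 1)) n) :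
    P ∈ saw (St S) n ∨ P ∈ bs (S + 1) n ∨ (∃ m, m + 1 = n ∧ ∃ Q ∈ bs (S + 1) m, P = gz Q :: Q) ∨
    (∃ Q ∈ bs (S + 1) (n + 1), P = Q.tail) ∨
    ∃ m l, m + l + 2 = n ∧ ∃ Q ∈ bs (S + 1) m, ∃ R ∈ saw (St S) l,
      P = R.map (fun z => gz Q + (-1, 0) - z) ++ Q := by
  have h := hP
  rw [mem_saw (St_dom _)] at h
  have h' := h
  rw [isSaw_iff] at h'
  obtain ⟨hl, hN, hC, hsuf, hp⟩ := h'
  by_cases hex : ∃ x ∈ P, 3 * ((S + 1 : ℕ) : ℤ) ≤ F0 x
  · right
    obtain ⟨s, v, t, rfl, hv, hs⟩ := split_first (fun x => 3 * ((S + 1 : ℕ) : ℤ) ≤ F0 x) P hex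
    have hpv : St (S + 1) v := by
      rcases hp v (by simp) with rfl | h
      · exfalso
        simp only [F0, o'] at hv
        push_cast at hv
        omega
      · exact h
    -- t is not empty
    obtain ⟨w, r, rfl⟩ : ∃ w r, t = w :: r := by
      cases t with
      | nil =>
        exfalso
        obtain ⟨q, hq⟩ := hsuf
        have e1 : (s ++ [v]).getLast (by simp) = v := by simp
        have e2 : (s ++ [v]).getLast (by simp) = o' := by simp only [← hq]; simp
        rw [e1] at e2
        rw [e2] at hv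
        simp only [F0, o'] at hv
        push_cast at hv
        omega
      | cons w r => exact ⟨w, r, rfl⟩
    rcases List.eq_nil_or_concat s with rfl | ⟨s', y, rfl⟩
    · rw [List.nil_append] at h hP ⊢
      by_cases hv1 : F0 v = 3 * ((S + 1 : ℕ) : ℤ) + 1
      · left
        exact mem_bs.2 ⟨h, by simpa using hv1⟩
      · right
        have hv2 : F0 v = 3 * ((S + 1 : ℕ) : ℤ) := by
          have := hpv.2.2
          omega
        by_cases hw : F0 w = 3 * ((S + 1 : ℕ) : ℤ) + 1
        · left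
          obtain ⟨m, hm, hQ, hg⟩ := head_left h hv2 hw
          exact ⟨m, hm, _, hQ, by rw [← hg]⟩
        · right; left
          exact ⟨_, head_right (by omega) h hv2 hw, rfl⟩
    · right; right; right
      have e1 : (s'.concat y) ++ v :: w :: r = s' ++ y :: v :: w :: r := by simp
      rw [e1] at h hP ⊢
      have hs1 : ∀ x ∈ s', F0 x < 3 * ((S : ℤ) + 1) := by
        intro x hx
        have := hs x (by rw [List.concat_eq_append]; exact List.mem_append_left _ hx)
        push_cast at this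
        omega
      have hs2 : F0 y < 3 * ((S : ℤ) + 1) := by
        have := hs y (by simp)
        push_cast at this
        omega
      push_cast at hv
      exact leave h hs1 hs2 hv
  · left
    push Not at hex
    rw [mem_saw (St_dom _)]
    refine IsSaw.mono h ?_
    intro x hx hpx
    have h1 := hex x hx
    have h2 := hon_F0 hpx.1
    refine ⟨hpx.1, hpx.2.1, ?_⟩
    push_cast at h1
    omega

/-- The decomposition in the strip of width one. -/
lemma cover0 {n : ℕ} {P : List (ℤ × ℤ)} (hP : P ∈ saw (St 0) n) :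
    n = 0 ∨ P ∈ bs 0 n ∨ (∃ m, m + 1 = n ∧ ∃ Q ∈ bs 0 m, P = gz Q :: Q) := by
  rcases Nat.eq_zero_or_pos n with hn | hn
  · exact Or.inl hn
  · right
    have h := hP
    rw [mem_saw (St_dom _)] at h
    obtain ⟨v, w, r, rfl, hadj, hpv⟩ := h.cases
    by_cases hv1 : F0 v = 3 * ((0 : ℕ) : ℤ) + 1
    · left
      exact mem_bs.2 ⟨h, by simpa using hv1⟩
    · right
      have hv2 : F0 v = 3 * ((0 : ℕ) : ℤ) := by
        have h1 := hpv.2.1
        have h2 := hpv.2.2
        omega
      have hw : F0 w = 3 * ((0 : ℕ) : ℤ) + 1 := by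
        obtain ⟨m, rfl⟩ : ∃ m, n = m + 1 := ⟨n - 1, by omega⟩
        have h1 := h.tail.1
        obtain ⟨w', u, r', he, -, hpw⟩ := h1.cases
        simp only [List.cons.injEq] at he
        rw [← he.1] at hpw
        obtain ⟨h1, h2, h3⟩ := hpw
        obtain ⟨-, -, h6⟩ := hadj
        obtain ⟨a, b⟩ := v
        obtain ⟨c, d⟩ := w
        simp only [U, F0, hon, Prod.mk_sub_mk] at *
        omega
      obtain ⟨m, hm, hQ, hg⟩ := head_left h hv2 hw
      exact ⟨m, hm, _, hQ, by rw [← hg]⟩

end Pool.Agent.Hhelper63.HW
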